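import Pool.Agent.H98.AM.Targets

/-!
# Critical almost Mathieu operator (MP_29bb0a_mp): module I3.
helper14
-/

open Polynomial

noncomputable section

namespace Pool.Agent.H14.AM

open Pool.Agent.H98.AM

/-- the grid intervals which meet `F` -/
def gs (δ : ℝ) (F : Set ℝ) : Set ℤ := {m : ℤ | (Set.Icc (m * δ) ((m + 1) * δ) ∩ F).Nonempty}

theorem ncov_eq (δ : ℝ) (F : Set ℝ) : Ncov δ F = (gs δ F).ncard := rfl

theorem gs_mono (δ : ℝ) {A B : Set ℝ} (h : A ⊆ B) : gs δ A ⊆ gs δ B := by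
  intro m hm
  exact hm.mono (Set.inter_subset_inter_right _ h)

theorem gs_Icc (δ : ℝ) (hδ : 0 < δ) (a b : ℝ) :
    gs δ (Set.Icc a b) ⊆ (Finset.Icc ⌈a / δ - 1⌉ ⌊b / δ⌋ : Finset ℤ) := by
  rintro m ⟨x, ⟨h1, h2⟩, h3, h4⟩
  rw [Finset.mem_coe, Finset.mem_Icc]
  constructor
  · rw [Int.ceil_le]
    have : a ≤ (m + 1) * δ := h3.trans h2
    rw [sub_le_iff_le_add, div_le_iff₀ hδ]
    exact this
  · rw [Int.le_floor]
    have : m * δ ≤ b := h1.trans h4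
    rw [le_div_iff₀ hδ]
    exact this

theorem gs_finite (δ : ℝ) (hδ : 0 < δ) (B : Set ℝ) (hB : Bornology.IsBounded B) :
    (gs δ B).Finite := by
  obtain ⟨R, hR⟩ := hB.subset_closedBall 0
  rw [Real.closedBall_eq_Icc] at hR
  exact (Finset.finite_toSet _).subset ((gs_mono δ hR).trans (gs_Icc δ hδ _ _))

theorem ncov_mono (δ : ℝ) (hδ : 0 < δ) (A B : Set ℝ) (hB : Bornology.IsBounded B) (h : A ⊆ B) :
    Ncov δ A ≤ Ncov δ B :=
  Set.ncard_le_ncard (gs_mono δ h) (gs_finite δ hδ B hB)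

theorem ncov_union (δ : ℝ) (A B : Set ℝ) : Ncov δ (A ∪ B) ≤ Ncov δ A + Ncov δ B := by
  have : gs δ (A ∪ B) = gs δ A ∪ gs δ B := by
    ext m
    simp only [gs, Set.mem_ofPred_eq, Set.mem_union, Set.inter_union_distrib_left,
      Set.union_nonempty]
  rw [ncov_eq, this]
  exact Set.ncard_union_le _ _

theorem ncov_Icc (δ : ℝ) (hδ : 0 < δ) (a b : ℝ) (hab : a ≤ b) :
    (Ncov δ (Set.Icc a b) : ℝ) ≤ (b - a) / δ + 3 := by
  have h1 : Ncov δ (Set.Icc a b) ≤ (Finset.Icc ⌈a / δ - 1⌉ ⌊b / δ⌋).card := by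
    rw [ncov_eq, ← Set.ncard_coe_finset]
    exact Set.ncard_le_ncard (gs_Icc δ hδ a b) (Finset.finite_toSet _)
  have h2 : ((Finset.Icc ⌈a / δ - 1⌉ ⌊b / δ⌋).card : ℝ) ≤ (b - a) / δ + 3 := by
    rw [Int.card_Icc]
    have h3 : ((⌊b / δ⌋ + 1 - ⌈a / δ - 1⌉).toNat : ℝ) = (((⌊b / δ⌋ + 1 - ⌈a / δ - 1⌉).toNat : ℤ) : ℝ) := by
      norm_cast
    rw [h3, Int.toNat_eq_max]
    push_cast
    apply max_le
    · have e1 := Int.floor_le (b / δ)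
      have e2 := Int.le_ceil (a / δ - 1)
      have e3 : (b - a) / δ = b / δ - a / δ := sub_div _ _ _
      linarith
    · have : 0 ≤ (b - a) / δ := div_nonneg (by linarith) hδ.le
      linarith
  exact (Nat.cast_le.mpr h1).trans h2

theorem ncov_singleton (δ : ℝ) (hδ : 0 < δ) (x : ℝ) : Ncov δ {x} ≤ 2 := by
  have h1 : gs δ {x} ⊆ (Finset.Icc ⌈x / δ - 1⌉ ⌊x / δ⌋ : Finset ℤ) := by
    have := gs_Icc δ hδ x x
    rwa [Set.Icc_self] at this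
  have h2 : (Finset.Icc ⌈x / δ - 1⌉ ⌊x / δ⌋).card ≤ 2 := by
    rw [Int.card_Icc]
    have e1 : (⌊x / δ⌋ : ℝ) ≤ x / δ := Int.floor_le _
    have e2 : x / δ - 1 ≤ (⌈x / δ - 1⌉ : ℝ) := Int.le_ceil _
    have : (⌊x / δ⌋ : ℝ) - ⌈x / δ - 1⌉ ≤ 1 := by linarith
    have : ⌊x / δ⌋ - ⌈x / δ - 1⌉ ≤ 1 := by exact_mod_cast this
    omega
  rw [ncov_eq]
  calc (gs δ {x}).ncard ≤ ((Finset.Icc ⌈x / δ - 1⌉ ⌊x / δ⌋ : Finset ℤ) : Set ℤ).ncard :=
        Set.ncard_le_ncard h1 (Finset.finite_toSet _)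
    _ ≤ 2 := by rw [Set.ncard_coe_finset]; exact h2

theorem ncov_empty (δ : ℝ) : Ncov δ ∅ = 0 := by
  rw [ncov_eq]
  have : gs δ ∅ = ∅ := by
    ext m
    simp [gs]
  rw [this, Set.ncard_empty]

theorem ncov_biUnion (δ : ℝ) (κ : Type) (s : Finset κ) (A : κ → Set ℝ) :
    Ncov δ (⋃ k ∈ s, A k) ≤ ∑ k ∈ s, Ncov δ (A k) := by
  classical
  induction s using Finset.induction_on with
  | empty => simp [ncov_empty]
  | insert a s ha ih =>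
    rw [Finset.set_biUnion_insert, Finset.sum_insert ha]
    exact (ncov_union _ _ _).trans (by omega)

theorem ncov_finset (δ : ℝ) (hδ : 0 < δ) (F : Finset ℝ) : Ncov δ (F : Set ℝ) ≤ 2 * F.card := by
  have h := ncov_biUnion δ ℝ F (fun x => {x})
  rw [show (⋃ k ∈ F, ({k} : Set ℝ)) = (F : Set ℝ) by ext; simp] at h
  refine h.trans ?_
  calc ∑ k ∈ F, Ncov δ {k} ≤ ∑ _k ∈ F, 2 := Finset.sum_le_sum fun k _ => ncov_singleton δ hδ k
    _ = 2 * F.card := by rw [Finset.sum_const, smul_eq_mul, mul_comm]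

theorem i3 : T_I3 := fun δ hδ =>
  ⟨ncov_finset δ hδ, ncov_mono δ hδ, ncov_union δ, ncov_Icc δ hδ,
    fun κ s A _ => ncov_biUnion δ κ s A⟩

end Pool.Agent.H14.AM
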