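import Pool.Agent.H98.AM.Targets

/-!
# Critical almost Mathieu operator (MP_29bb0a_mp): module I6.
helper14
-/

open Polynomial

noncomputable section

namespace Pool.Agent.H14.AM

open Pool.Agent.H98.AM

theorem card_Icc_real (A B : ℝ) (h : A ≤ B + 1) :
    ((Finset.Icc ⌈A⌉ ⌊B⌋).card : ℝ) ≤ B - A + 1 := by
  rw [Int.card_Icc]
  have h3 : ((⌊B⌋ + 1 - ⌈A⌉).toNat : ℝ) = (((⌊B⌋ + 1 - ⌈A⌉).toNat : ℤ) : ℝ) := by
    norm_cast
  rw [h3, Int.toNat_eq_max]
  push_cast
  apply max_le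
  · have e1 := Int.floor_le B
    have e2 := Int.le_ceil A
    linarith
  · linarith

theorem i6 : T_I6 := by
  classical
  intro p s p' r θ0 c τ o θ m hs hr hdet hτ ho hθ
  set σ : ℤ := p * r - p' * s with hσ
  have hσ2 : σ * σ = 1 := by
    have := abs_mul_abs_self σ
    rw [hdet] at this
    linarith
  have hr0 : (0 : ℝ) < r := by exact_mod_cast hr
  let K : ℕ → ℤ := fun a => if h : ∃ k : ℤ, |s * θ a - c - k| ≤ τ then h.choose else 0
  have hK : ∀ a, (∃ k : ℤ, |s * θ a - c - k| ≤ τ) → |s * θ a - c - K a| ≤ τ := by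
    intro a h
    have : K a = h.choose := dif_pos h
    rw [this]
    exact h.choose_spec
  let b : ℕ → ℤ := fun a => -σ * a + r * ((a + o a) * p - s * m a - K a)
  set g : ℝ := r * (s * θ0 - c) with hg
  have hb : ∀ a, (∃ k : ℤ, |s * θ a - c - k| ≤ τ) → |(b a : ℝ) + g| ≤ τ * r + s := by
    intro a h
    have h1 := hK a h
    have h2 := hθ a
    have h3 : (r : ℝ) * (s * θ a - c - K a) = (b a : ℝ) + g - σ * o a := by
      have h4 : θ a = ((a + o a : ℕ) : ℝ) * (p' / r) + θ0 - m a := by linarith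
      have h5 : (r : ℝ) * (s * θ a) = ((a + o a : ℕ) : ℝ) * (s * p') + r * s * θ0 - r * s * m a := by
        rw [h4]
        field_simp
      have h6 : (s : ℝ) * p' = p * r - σ := by
        rw [hσ]
        push_cast
        ring
      have h7 : (r : ℝ) * (s * θ a - c - K a) = r * (s * θ a) - r * c - r * K a := by ring
      rw [h7, h5, h6, hg]
      simp only [b]
      push_cast
      ring
    have h4 : |(b a : ℝ) + g - σ * o a| ≤ τ * r := by
      rw [← h3, abs_mul, abs_of_pos hr0, mul_comm]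
      exact mul_le_mul_of_nonneg_right h1 hr0.le
    have h5 : |(σ : ℝ) * o a| ≤ s := by
      rw [abs_mul]
      have h6 : |(σ : ℝ)| = 1 := by exact_mod_cast congrArg (Int.cast : ℤ → ℝ) hdet
      rw [h6, one_mul, abs_of_nonneg (Nat.cast_nonneg _)]
      exact_mod_cast (ho a).le
    calc |(b a : ℝ) + g| = |((b a : ℝ) + g - σ * o a) + σ * o a| := by ring_nf
      _ ≤ |(b a : ℝ) + g - σ * o a| + |(σ : ℝ) * o a| := abs_add_le _ _
      _ ≤ τ * r + s := add_le_add h4 h5
  set A : ℝ := -(τ * r + s) - g with hA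
  set B : ℝ := τ * r + s - g with hB
  have hinj : ∀ a a' : ℕ, a < r → a' < r → b a = b a' → a = a' := by
    intro a a' h h' hbb
    have h1 : (r : ℤ) ∣ σ * ((a : ℤ) - a') := by
      refine ⟨((a + o a) * p - s * m a - K a) - ((a' + o a') * p - s * m a' - K a'), ?_⟩
      simp only [b] at hbb
      linarith
    have h2 : (r : ℤ) ∣ (a : ℤ) - a' := by
      have := h1.mul_left σ
      rwa [← mul_assoc, hσ2, one_mul] at this
    have h3 : (a : ℤ) - a' = 0 := by
      apply Int.eq_zero_of_abs_lt_dvd h2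
      rw [abs_lt]
      constructor <;> omega
    omega
  let f : {a : ℕ // a < r ∧ ∃ k : ℤ, |s * θ a - c - k| ≤ τ} → ↥(Finset.Icc ⌈A⌉ ⌊B⌋) := fun a =>
    ⟨b a.1, by
      have h := hb a.1 a.2.2
      rw [abs_le] at h
      rw [Finset.mem_Icc, Int.ceil_le, Int.le_floor]
      constructor
      · rw [hA]; linarith [h.1]
      · rw [hB]; linarith [h.2]⟩
  have hf : Function.Injective f := by
    intro a a' haa
    have : b a.1 = b a'.1 := congrArg Subtype.val haa
    exact Subtype.ext (hinj _ _ a.2.1 a'.2.1 this)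
  have h1 := Nat.card_le_card_of_injective f hf
  rw [Nat.card_eq_fintype_card (α := ↥(Finset.Icc ⌈A⌉ ⌊B⌋)), Fintype.card_coe] at h1
  have h2 : A ≤ B + 1 := by
    have : 0 ≤ τ * r := mul_nonneg hτ hr0.le
    have : (0 : ℝ) ≤ s := Nat.cast_nonneg _
    rw [hA, hB]
    linarith
  have h3 := card_Icc_real A B h2
  calc (Nat.card {a : ℕ // a < r ∧ ∃ k : ℤ, |s * θ a - c - k| ≤ τ} : ℝ)
      ≤ ((Finset.Icc ⌈A⌉ ⌊B⌋).card : ℝ) := by exact_mod_cast h1
    _ ≤ B - A + 1 := h3
    _ ≤ 2 * τ * r + 2 * s + 4 := by rw [hA, hB]; linarith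

end Pool.Agent.H14.AM
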