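import Pool.Agent.H14.AM.I3
import Pool.Agent.H14.AM.I6

/-!
# Critical almost Mathieu operator (MP_29bb0a_mp): module I4.
helper14
-/

open Polynomial

noncomputable section

namespace Pool.Agent.H14.AM

open Pool.Agent.H98.AM

/-- the mass of the fattened grid interval -/
def fat (R : Finset ℝ) (mu : ℝ → ℝ) (Δ : ℝ) (n : ℤ) : ℝ :=
  ∑ e ∈ R.filter (fun e => |e - (n + 1 / 2) * Δ| ≤ 5 / 2 * Δ), mu e

theorem heavy_card (R : Finset ℝ) (mu : ℝ → ℝ) (hmu : ∀ e, 0 ≤ mu e) (Δ T M : ℝ) (hΔ : 0 < Δ)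
    (hM : ∑ e ∈ R, mu e ≤ M) (S : Finset ℤ) (hS : ∀ n ∈ S, T * Δ ≤ fat R mu Δ n) :
    S.card * (T * Δ) ≤ 6 * M := by
  classical
  have h1 : (S.card : ℝ) * (T * Δ) ≤ ∑ n ∈ S, fat R mu Δ n := by
    rw [← nsmul_eq_mul, ← Finset.sum_const]
    exact Finset.sum_le_sum hS
  have h2 : ∑ n ∈ S, fat R mu Δ n
      = ∑ e ∈ R, mu e * (S.filter (fun n : ℤ => |e - (n + 1 / 2) * Δ| ≤ 5 / 2 * Δ)).card := by
    have : ∀ n ∈ S, fat R mu Δ n
        = ∑ e ∈ R, if |e - ((n : ℝ) + 1 / 2) * Δ| ≤ 5 / 2 * Δ then mu e else 0 := by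
      intro n _
      rw [fat, Finset.sum_filter]
    rw [Finset.sum_congr rfl this, Finset.sum_comm]
    refine Finset.sum_congr rfl fun e _ => ?_
    rw [← Finset.sum_filter, Finset.sum_const, nsmul_eq_mul, mul_comm]
  have h3 : ∀ e ∈ R, mu e * (S.filter (fun n : ℤ => |e - (n + 1 / 2) * Δ| ≤ 5 / 2 * Δ)).card
      ≤ mu e * 6 := by
    intro e _
    apply mul_le_mul_of_nonneg_left _ (hmu e)
    have h4 : (S.filter (fun n : ℤ => |e - (n + 1 / 2) * Δ| ≤ 5 / 2 * Δ))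
        ⊆ Finset.Icc ⌈e / Δ - 3⌉ ⌊e / Δ + 2⌋ := by
      intro n hn
      rw [Finset.mem_filter] at hn
      have h5 := abs_le.mp hn.2
      rw [Finset.mem_Icc, Int.ceil_le, Int.le_floor]
      have e1 : e / Δ * Δ = e := div_mul_cancel₀ _ hΔ.ne'
      constructor
      · by_contra hc
        push Not at hc
        have := mul_lt_mul_of_pos_right hc hΔ
        nlinarith [h5.1, h5.2]
      · by_contra hc
        push Not at hc
        have := mul_lt_mul_of_pos_right hc hΔ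
        nlinarith [h5.1, h5.2]
    have h6 := card_Icc_real (e / Δ - 3) (e / Δ + 2) (by linarith)
    have h7 := Finset.card_le_card h4
    have h8 : ((S.filter (fun n : ℤ => |e - (n + 1 / 2) * Δ| ≤ 5 / 2 * Δ)).card : ℝ)
        ≤ ((Finset.Icc ⌈e / Δ - 3⌉ ⌊e / Δ + 2⌋).card : ℝ) := by exact_mod_cast h7
    linarith
  calc (S.card : ℝ) * (T * Δ) ≤ ∑ n ∈ S, fat R mu Δ n := h1
    _ ≤ ∑ e ∈ R, mu e * 6 := by rw [h2]; exact Finset.sum_le_sum h3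
    _ = 6 * ∑ e ∈ R, mu e := by rw [← Finset.sum_mul, mul_comm]
    _ ≤ 6 * M := by linarith

/-- the ball lies in the fattened interval -/
theorem bm_le_fat (D : ℝ[X]) (mu : ℝ → ℝ) (hmu : ∀ e, 0 ≤ mu e) (Δ E : ℝ) (hΔ : 0 < Δ) :
    bm D mu E (2 * Δ) ≤ fat (rts D) mu Δ ⌊E / Δ⌋ := by
  unfold bm fat rts
  apply Finset.sum_le_sum_of_subset_of_nonneg
  · intro e he
    rw [Finset.mem_filter] at he ⊢
    refine ⟨he.1, ?_⟩
    have h1 := Int.floor_le (E / Δ)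
    have h2 := Int.lt_floor_add_one (E / Δ)
    rw [le_div_iff₀ hΔ] at h1
    rw [div_lt_iff₀ hΔ] at h2
    have h3 := abs_le.mp he.2
    rw [abs_le]
    constructor <;> nlinarith [h3.1, h3.2]
  · intro e _ _
    exact hmu e

theorem bm_mono (D : ℝ[X]) (mu : ℝ → ℝ) (hmu : ∀ e, 0 ≤ mu e) (E d d' : ℝ) (h : d ≤ d') :
    bm D mu E d ≤ bm D mu E d' := by
  unfold bm
  apply Finset.sum_le_sum_of_subset_of_nonneg
  · intro e he
    rw [Finset.mem_filter] at he ⊢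
    exact ⟨he.1, he.2.trans h⟩
  · intro e _ _
    exact hmu e

theorem bm_le (D : ℝ[X]) (mu : ℝ → ℝ) (hmu : ∀ e, 0 ≤ mu e) (E d : ℝ) :
    bm D mu E d ≤ ∑ e ∈ rts D, mu e := by
  unfold bm rts
  exact Finset.sum_le_sum_of_subset_of_nonneg (Finset.filter_subset _ _) fun e _ _ => hmu e

/-- the exceptional set at one scale -/
def Xs (D : ℝ[X]) (mu : ℝ → ℝ) (T Δ : ℝ) : Set ℝ := {E | |E| ≤ 5 ∧ T * Δ < bm D mu E (2 * Δ)}

theorem Xs_subset (D : ℝ[X]) (mu : ℝ → ℝ) (T Δ : ℝ) : Xs D mu T Δ ⊆ Set.Icc (-5) 5 := by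
  intro E hE
  exact abs_le.mp hE.1

/-- the heavy grid indices -/
def heavy (D : ℝ[X]) (mu : ℝ → ℝ) (T Δ : ℝ) : Finset ℤ :=
  (Finset.Icc ⌊-5 / Δ⌋ ⌊5 / Δ⌋).filter (fun n => T * Δ < fat (rts D) mu Δ n)

theorem mem_heavy (D : ℝ[X]) (mu : ℝ → ℝ) (hmu : ∀ e, 0 ≤ mu e) (T Δ : ℝ) (hΔ : 0 < Δ) (E : ℝ)
    (hE : E ∈ Xs D mu T Δ) : ⌊E / Δ⌋ ∈ heavy D mu T Δ := by
  rw [heavy, Finset.mem_filter, Finset.mem_Icc]
  have h1 := abs_le.mp hE.1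
  refine ⟨⟨Int.floor_le_floor ?_, Int.floor_le_floor ?_⟩, hE.2.trans_le (bm_le_fat D mu hmu Δ E hΔ)⟩
  · exact div_le_div_of_nonneg_right h1.1 hΔ.le
  · exact div_le_div_of_nonneg_right h1.2 hΔ.le

theorem mem_grid (Δ E : ℝ) (hΔ : 0 < Δ) :
    E ∈ Set.Icc ((⌊E / Δ⌋ : ℝ) * Δ) (((⌊E / Δ⌋ : ℝ) + 1) * Δ) := by
  have h1 := Int.floor_le (E / Δ)
  have h2 := Int.lt_floor_add_one (E / Δ)
  rw [le_div_iff₀ hΔ] at h1
  rw [div_lt_iff₀ hΔ] at h2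
  exact ⟨h1, h2.le⟩

theorem card_heavy (D : ℝ[X]) (mu : ℝ → ℝ) (hmu : ∀ e, 0 ≤ mu e) (h40 : ∑ e ∈ rts D, mu e ≤ 40)
    (T Δ : ℝ) (hT : 0 < T) (hΔ : 0 < Δ) :
    ((heavy D mu T Δ).card : ℝ) ≤ 240 / (T * Δ) := by
  have h := heavy_card (rts D) mu hmu Δ T 40 hΔ h40 (heavy D mu T Δ) (by
    intro n hn
    rw [heavy, Finset.mem_filter] at hn
    exact hn.2.le)
  rw [le_div_iff₀ (by positivity)]
  linarith

theorem ncov_Xs (D : ℝ[X]) (mu : ℝ → ℝ) (hmu : ∀ e, 0 ≤ mu e) (h40 : ∑ e ∈ rts D, mu e ≤ 40)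
    (T Δ δ : ℝ) (hT : 0 < T) (hδ : 0 < δ) (hΔ : δ ≤ Δ) :
    (Ncov δ (Xs D mu T Δ) : ℝ) ≤ 960 / (T * δ) := by
  have hΔ0 : 0 < Δ := hδ.trans_le hΔ
  have h1 : Xs D mu T Δ ⊆ ⋃ n ∈ heavy D mu T Δ, Set.Icc ((n : ℝ) * Δ) (((n : ℝ) + 1) * Δ) := by
    intro E hE
    rw [Set.mem_iUnion₂]
    exact ⟨⌊E / Δ⌋, mem_heavy D mu hmu T Δ hΔ0 E hE, mem_grid Δ E hΔ0⟩
  have hbd : Bornology.IsBounded
      (⋃ n ∈ heavy D mu T Δ, Set.Icc ((n : ℝ) * Δ) (((n : ℝ) + 1) * Δ)) := by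
    rw [Bornology.isBounded_biUnion_finset]
    intro n _
    exact Metric.isBounded_Icc _ _
  have h2 := ncov_mono δ hδ _ _ hbd h1
  have h3 := ncov_biUnion δ ℤ (heavy D mu T Δ) (fun n => Set.Icc ((n : ℝ) * Δ) (((n : ℝ) + 1) * Δ))
  have h4 : (∑ n ∈ heavy D mu T Δ, (Ncov δ (Set.Icc ((n : ℝ) * Δ) (((n : ℝ) + 1) * Δ)) : ℝ))
      ≤ ∑ _n ∈ heavy D mu T Δ, 4 * (Δ / δ) := by
    refine Finset.sum_le_sum fun n _ => ?_
    have h5 := ncov_Icc δ hδ ((n : ℝ) * Δ) (((n : ℝ) + 1) * Δ) (by nlinarith)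
    have h6 : (((n : ℝ) + 1) * Δ - (n : ℝ) * Δ) / δ = Δ / δ := by ring_nf
    rw [h6] at h5
    have h7 : 1 ≤ Δ / δ := by rw [le_div_iff₀ hδ]; linarith
    linarith
  have h5 := card_heavy D mu hmu h40 T Δ hT hΔ0
  calc (Ncov δ (Xs D mu T Δ) : ℝ)
      ≤ ((∑ n ∈ heavy D mu T Δ, Ncov δ (Set.Icc ((n : ℝ) * Δ) (((n : ℝ) + 1) * Δ)) : ℕ) : ℝ) := by
        exact_mod_cast h2.trans h3
    _ = ∑ n ∈ heavy D mu T Δ, (Ncov δ (Set.Icc ((n : ℝ) * Δ) (((n : ℝ) + 1) * Δ)) : ℝ) := by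
        push_cast
        rfl
    _ ≤ ∑ _n ∈ heavy D mu T Δ, 4 * (Δ / δ) := h4
    _ = (heavy D mu T Δ).card * (4 * (Δ / δ)) := by rw [Finset.sum_const, nsmul_eq_mul]
    _ ≤ 240 / (T * Δ) * (4 * (Δ / δ)) := by
        apply mul_le_mul_of_nonneg_right h5 (by positivity)
    _ = 960 / (T * δ) := by
        field_simp
        norm_num

/-- number of scales -/
def nsc (d0 : ℝ) : ℕ := ⌈Real.logb 2 (40 / d0)⌉₊

theorem nsc_le (d0 : ℝ) (h0 : 0 < d0) (h1 : d0 ≤ 1) :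
    (nsc d0 : ℝ) ≤ 7 * (1 + Real.log (1 / d0)) := by
  have hL : 0 ≤ Real.log (1 / d0) := Real.log_nonneg (by rw [le_div_iff₀ h0]; linarith)
  have hl2 : 0.69 < Real.log 2 := by
    have := Real.log_two_gt_d9
    linarith
  have h40 : Real.log 40 ≤ 6 * Real.log 2 := by
    have h : Real.log (40 : ℝ) ≤ Real.log ((2 : ℝ) ^ (6 : ℕ)) :=
      Real.log_le_log (by norm_num) (by norm_num)
    rw [Real.log_pow] at h
    exact_mod_cast h
  have h2 : Real.logb 2 (40 / d0) = (Real.log 40 + Real.log (1 / d0)) / Real.log 2 := by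
    rw [Real.logb, Real.log_div (by norm_num) h0.ne', Real.log_div (by norm_num) h0.ne',
      Real.log_one]
    ring
  have h3 : Real.logb 2 (40 / d0) ≤ 6 + 1.5 * Real.log (1 / d0) := by
    rw [h2, div_le_iff₀ (by linarith)]
    nlinarith
  have h4 : 0 ≤ Real.logb 2 (40 / d0) := by
    apply Real.logb_nonneg (by norm_num)
    rw [le_div_iff₀ h0]
    linarith
  have h5 := Nat.ceil_lt_add_one h4
  unfold nsc
  linarith

theorem exists_scale (d0 d T : ℝ) (h0 : 0 < d0) (hd : d0 ≤ d) (hT : 1 ≤ T) (hd2 : T * d < 40) :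
    ∃ k < nsc d0, 2 ^ k * d0 ≤ d ∧ d < 2 * (2 ^ k * d0) := by
  have h1 : 1 ≤ d / d0 := by rw [le_div_iff₀ h0]; linarith
  obtain ⟨k, hk1, hk2⟩ := exists_nat_pow_near h1 (one_lt_two : (1 : ℝ) < 2)
  rw [le_div_iff₀ h0] at hk1
  rw [div_lt_iff₀ h0, pow_succ] at hk2
  refine ⟨k, ?_, hk1, by linarith⟩
  have h2 : d < 40 := by nlinarith
  have h3 : (2 : ℝ) ^ k < 40 / d0 := by rw [lt_div_iff₀ h0]; linarith
  have h4 : (k : ℝ) < Real.logb 2 (40 / d0) := by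
    rw [Real.lt_logb_iff_rpow_lt (by norm_num) (by positivity), Real.rpow_natCast]
    exact h3
  unfold nsc
  rw [Nat.lt_ceil]
  exact h4

theorem i4 : T_I4 := by
  intro D mu T d0 δ hmu _ h40 hT hδ hδd h1
  have hd0 : 0 < d0 := hδ.trans_le hδd
  have hT0 : 0 < T := by linarith
  have hsub : {E : ℝ | |E| ≤ 5 ∧ ∃ d, d0 ≤ d ∧ T * d < bm D mu E d}
      ⊆ ⋃ k ∈ Finset.range (nsc d0), Xs D mu T (2 ^ k * d0) := by
    rintro E ⟨hE, d, hd, hd2⟩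
    have h5 : T * d < 40 := hd2.trans_le ((bm_le D mu hmu E d).trans h40)
    obtain ⟨k, hk, hk1, hk2⟩ := exists_scale d0 d T hd0 hd hT h5
    rw [Set.mem_iUnion₂]
    refine ⟨k, Finset.mem_range.mpr hk, hE, ?_⟩
    calc T * (2 ^ k * d0) ≤ T * d := mul_le_mul_of_nonneg_left hk1 hT0.le
      _ < bm D mu E d := hd2
      _ ≤ bm D mu E (2 * (2 ^ k * d0)) := bm_mono D mu hmu E _ _ hk2.le
  have hbd : Bornology.IsBounded (⋃ k ∈ Finset.range (nsc d0), Xs D mu T (2 ^ k * d0)) := by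
    rw [Bornology.isBounded_biUnion_finset]
    intro k _
    exact (Metric.isBounded_Icc _ _).subset (Xs_subset _ _ _ _)
  have h2 := ncov_mono δ hδ _ _ hbd hsub
  have h3 := ncov_biUnion δ ℕ (Finset.range (nsc d0)) (fun k => Xs D mu T (2 ^ k * d0))
  have hL : 0 ≤ Real.log (1 / d0) := Real.log_nonneg (by rw [le_div_iff₀ hd0]; linarith)
  calc (Ncov δ {E : ℝ | |E| ≤ 5 ∧ ∃ d, d0 ≤ d ∧ T * d < bm D mu E d} : ℝ)
      ≤ ((∑ k ∈ Finset.range (nsc d0), Ncov δ (Xs D mu T (2 ^ k * d0)) : ℕ) : ℝ) := by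
        exact_mod_cast h2.trans h3
    _ = ∑ k ∈ Finset.range (nsc d0), (Ncov δ (Xs D mu T (2 ^ k * d0)) : ℝ) := by
        push_cast
        rfl
    _ ≤ ∑ _k ∈ Finset.range (nsc d0), 960 / (T * δ) := by
        refine Finset.sum_le_sum fun k _ => ncov_Xs D mu hmu h40 T _ δ hT0 hδ ?_
        have : (1 : ℝ) ≤ 2 ^ k := one_le_pow₀ (by norm_num)
        nlinarith
    _ = nsc d0 * (960 / (T * δ)) := by rw [Finset.sum_const, Finset.card_range, nsmul_eq_mul]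
    _ ≤ (7 * (1 + Real.log (1 / d0))) * (960 / (T * δ)) :=
        mul_le_mul_of_nonneg_right (nsc_le d0 hd0 h1) (by positivity)
    _ ≤ 10000 * (1 + Real.log (1 / d0)) / (T * δ) := by
        rw [mul_div_assoc', div_le_div_iff_of_pos_right (by positivity)]
        nlinarith

end Pool.Agent.H14.AM
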