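import Pool.Agent.H14.AM.I6

/-!
# Critical almost Mathieu operator (MP_29bb0a_mp): module N2.
helper14
-/

open Polynomial

noncomputable section

namespace Pool.Agent.H14.AM

open Pool.Agent.H98.AM

theorem norm_one_sub_ex (x : ℝ) : ‖1 - ex x‖ = 2 * |Real.sin (Real.pi * x)| := by
  have h := Complex.norm_exp_I_mul_ofReal_sub_one (2 * Real.pi * x)
  rw [norm_sub_rev]
  unfold ex
  have e1 : (2 * Real.pi * x * Complex.I : ℂ) = Complex.I * ((2 * Real.pi * x : ℝ) : ℂ) := by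
    push_cast
    ring
  rw [e1, h, Real.norm_eq_abs, abs_mul, abs_two]
  congr 3
  ring

/-- a bad phase is close to one half -/
theorem bad_close (x w : ℝ) (hw : 0 ≤ w) (h : 2 * (1 - w ^ 2) < ‖1 - ex x‖) :
    ∃ k : ℤ, |x - 1 / 2 - k| ≤ w := by
  rw [norm_one_sub_ex] at h
  refine ⟨round (x - 1 / 2), ?_⟩
  set k : ℤ := round (x - 1 / 2) with hk
  set y : ℝ := x - 1 / 2 - k with hy
  have h1 : |y| ≤ 1 / 2 := abs_sub_round (x - 1 / 2)
  have h2 : Real.sin (Real.pi * x) = Real.cos (Real.pi * y + k * Real.pi) := by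
    rw [← Real.cos_pi_div_two_sub, ← Real.cos_neg]
    congr 1
    rw [hy]
    ring
  have h3 : |Real.sin (Real.pi * x)| = |Real.cos (Real.pi * y)| := by
    rw [h2, Real.cos_add_int_mul_pi, abs_mul]
    rw [abs_zpow, abs_neg, abs_one, one_zpow, one_mul]
  have hpi := Real.pi_pos
  have h4 : |Real.pi * y| ≤ Real.pi / 2 := by
    rw [abs_mul, abs_of_pos hpi]
    nlinarith
  have h5 : 0 ≤ Real.cos (Real.pi * y) := by
    apply Real.cos_nonneg_of_mem_Icc
    exact abs_le.mp h4 |>.imp (fun h => by linarith) (fun h => h)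
  have h6 := Real.cos_le_one_sub_mul_cos_sq (x := Real.pi * y) (by linarith)
  rw [h3, abs_of_nonneg h5] at h
  have h7 : 2 / Real.pi ^ 2 * (Real.pi * y) ^ 2 = 2 * y ^ 2 := by
    field_simp
  rw [h7] at h6
  apply abs_le_of_sq_le_sq _ hw
  nlinarith [sq_nonneg y]

theorem n2 (h9 : T_H9) : T_N2 := by
  classical
  intro C0 hC0
  refine ⟨8 + 24 * C0, by linarith, ?_⟩
  intro pr r pq q L N _ _ ι _ u o θ m hadj hK hL ho
  have hr1 : (1 : ℝ) ≤ r := by linarith
  have hr : 1 ≤ r := by exact_mod_cast hr1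
  have hr0 : (0 : ℝ) < r := by linarith
  have hq0 : (0 : ℝ) < q := by exact_mod_cast Nat.pos_of_ne_zero (NeZero.ne q)
  have hL0 : (0 : ℝ) < L := by exact_mod_cast hL
  set τ : ℝ := (r : ℝ) ^ (-(1 / 500) : ℝ) with hτ
  have hτ0 : 0 < τ := Real.rpow_pos_of_pos hr0 _
  have hτ2 : (r : ℝ) ^ (-(1 / 250) : ℝ) = τ ^ 2 := by
    rw [hτ, ← Real.rpow_natCast, ← Real.rpow_mul hr0.le]
    norm_num
  set B : Finset ℕ := (Finset.range q).filter
      (fun a => 2 * (1 - (r : ℝ) ^ (-(1 / 250) : ℝ)) < ‖1 - ex (r * θ a)‖) with hB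
  -- the number of bad centres
  have hbad : (B.card : ℝ) ≤ 2 * τ * q + 2 * r + 4 := by
    have h1 := i6 pr r pq q 0 (1 / 2) τ o θ m hr (Nat.pos_of_ne_zero (NeZero.ne q)) hadj.det hτ0.le
      (fun a => (ho a).1) (fun a => by rw [add_zero]; exact (ho a).2.2)
    have h2 : B.card ≤ Nat.card {a : ℕ // a < q ∧ ∃ k : ℤ, |r * θ a - 1 / 2 - k| ≤ τ} := by
      have hfin : Finite {a : ℕ // a < q ∧ ∃ k : ℤ, |r * θ a - 1 / 2 - k| ≤ τ} :=
        Set.Finite.subset (Set.finite_lt_nat q) (fun a h => h.1)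
      rw [← Fintype.card_coe, ← Nat.card_eq_fintype_card]
      let f : ↥B → {a : ℕ // a < q ∧ ∃ k : ℤ, |r * θ a - 1 / 2 - k| ≤ τ} := fun a =>
        ⟨a.1, by
          have ha := (Finset.mem_filter.mp a.2)
          rw [Finset.mem_range, hτ2] at ha
          exact ⟨ha.1, bad_close _ _ hτ0.le ha.2⟩⟩
      apply Nat.card_le_card_of_injective f
      intro a a' h
      exact Subtype.ext (congrArg (fun z => z.1) h)
    exact (by exact_mod_cast h2 : (B.card : ℝ) ≤ _).trans h1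
  -- Bessel
  set F : ι → ℕ → ℝ := fun i a =>
    ‖(cut r L 0 (fun k => ext q 1 (u i) (((a + o a : ℕ) : ℤ) + k)) : Rg N)‖ ^ 2 with hF
  have hbes : ∀ a, ∑ i, F i a ≤ 4 * L * r := by
    intro a
    have h1 := (h9 r L 0 q N 1 ι u ((a + o a : ℕ) : ℤ) hr hL (by simp)).1
    have h2 : (2 * ((0 : ℕ) + 2) * L * r : ℝ) = 4 * L * r := by
      push_cast
      ring
    calc ∑ i, F i a ≤ 2 * ((0 : ℕ) + 2) * L * r := h1
      _ = 4 * L * r := h2
  have hsum : ∑ i, ∑ a ∈ B, F i a ≤ B.card * (4 * L * r) := by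
    rw [Finset.sum_comm, ← nsmul_eq_mul, ← Finset.sum_const]
    exact Finset.sum_le_sum fun a _ => hbes a
  have hF0 : ∀ i a, 0 ≤ F i a := fun i a => by positivity
  set G : Finset ι := Finset.univ.filter (fun i => L * r < ∑ a ∈ B, F i a) with hG
  have hcard : (Nat.card {i // L * r < ∑ a ∈ B, F i a} : ℝ) = G.card := by
    rw [Nat.card_eq_fintype_card, Fintype.card_subtype]
  have h1 : (G.card : ℝ) * (L * r) ≤ ∑ i, ∑ a ∈ B, F i a := by
    calc (G.card : ℝ) * (L * r) = ∑ _i ∈ G, (L * r : ℝ) := by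
          rw [Finset.sum_const, nsmul_eq_mul]
      _ ≤ ∑ i ∈ G, ∑ a ∈ B, F i a := by
          refine Finset.sum_le_sum fun i hi => ?_
          rw [hG, Finset.mem_filter] at hi
          exact hi.2.le
      _ ≤ ∑ i, ∑ a ∈ B, F i a :=
          Finset.sum_le_sum_of_subset_of_nonneg (Finset.subset_univ _)
            fun i _ _ => Finset.sum_nonneg fun a _ => hF0 i a
  have h2 : (G.card : ℝ) ≤ 4 * B.card := by
    have h3 : (G.card : ℝ) * (L * r) ≤ 4 * B.card * (L * r) := by linarith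
    exact le_of_mul_le_mul_right h3 (by positivity)
  have h3 : (r : ℝ) ≤ C0 * q * τ := by
    have h4 := hadj.low
    have h5 : (r : ℝ) ^ (-1 : ℝ) ≤ τ := Real.rpow_le_rpow_of_exponent_le hr1 (by norm_num)
    have h6 : (r : ℝ) = (r : ℝ) ^ 2 * (r : ℝ) ^ (-1 : ℝ) := by
      rw [Real.rpow_neg_one]
      field_simp
    calc (r : ℝ) = (r : ℝ) ^ 2 * (r : ℝ) ^ (-1 : ℝ) := h6
      _ ≤ (C0 * q) * τ := by
        apply mul_le_mul h4 h5 (by positivity) (by positivity)
  calc (Nat.card {i // L * r < ∑ a ∈ B, F i a} : ℝ) = G.card := hcard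
    _ ≤ 4 * B.card := h2
    _ ≤ 4 * (2 * τ * q + 2 * r + 4) := by linarith
    _ ≤ (8 + 24 * C0) * q * τ := by nlinarith

end Pool.Agent.H14.AM
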